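import Pool.Agent.Run7.h252.CR
import Pool.Agent.Y235.JC.P6

/-!
# Keller maps which agree on the coordinate cross: complete intersections

Let `F` and `G` be Keller maps of the plane which agree on the coordinate cross. Let `E` be one of them,
let `L` and `H` be any polynomial maps of the plane with nonzero constant Jacobian determinants (for
instance automorphisms, or words in `F`, `G` and other such maps) and let `W = L ∘ E ∘ H`. Suppose
that rational functions `z₁, …, z_r` of `x, y` satisfy `r` equations `Φ_i(W₁; W₂, z) = 0`, where
`Φ_i ∈ ℂ[U][V, Z₁, …, Z_r]` has weighted degree `d_i` (for some positive weights of `V, Z_j`) and top form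
`c_i(U) Φ⁰_i` with `Φ⁰_i ∈ ℂ[V, Z]`, the curve `Φ = 0` over `ℂ(U)` is smooth, and its points at infinity
(the zeros of `Φ⁰`) lie outside `V = 0` and are transversal to `V = const`. If
`ℂ(x, y) = ℂ(W₁, W₂, z)` then `F = G`.

Proof: the theorem on plane Keller maps of the starting library (`Pool.Agent.Y235.JC`, not
handed in before on this page) shows that `W` has a polynomial inverse; then so has `E`
(`Run7.h252.KL`). The inverse of `E`, followed by the other map, is the identity on the cross, hence
invertible (a Keller map one of whose components has degree at most one on a line is invertible,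
`Pool.Agent.H938R2.JC.line`); its components are irreducible and divisible by `x` and by `y`, so it is
the identity (`Run7.h252.CR`). New here are the step from one invertible map to pairs which agree on
the cross and the composites.
-/

set_option autoImplicit false

open MvPolynomial

namespace Pool.Agent.Results.MP_631557_ag.CompleteIntersections

/-- Polynomials in two variables with complex coefficients. -/
abbrev P2 : Type := MvPolynomial (Fin 2) ℂ

/-- Rational functions in two variables with complex coefficients. -/
abbrev K2 : Type := FractionRing P2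

/-- The polynomial map `p ∘ q` of the plane (first `q`, then `p`). -/
noncomputable def comp (p q : Fin 2 → P2) : Fin 2 → P2 := fun i => aeval q (p i)

/-- The Jacobian determinant of the polynomial map `p`. -/
noncomputable def jacobian (p : Fin 2 → P2) : P2 :=
  pderiv 0 (p 0) * pderiv 1 (p 1) - pderiv 1 (p 0) * pderiv 0 (p 1)

/-- A family of weighted complete intersections: `r` equations `Φ_i` over `ℂ[U]` in the coordinates
`V = X none` and `Z_j = X (some j)`. -/
structure Curve (r : ℕ) where
  /-- the weights of the coordinates -/
  w : Option (Fin r) → ℕ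
  w_pos : ∀ o, 0 < w o
  /-- the weighted degrees of the equations -/
  d : Fin r → ℕ
  /-- the equations -/
  Φ : Fin r → MvPolynomial (Option (Fin r)) (Polynomial ℂ)
  /-- their top forms, up to factors in `ℂ[U]` -/
  top : Fin r → MvPolynomial (Option (Fin r)) ℂ
  /-- these factors -/
  c : Fin r → Polynomial ℂ
  c_ne : ∀ i, c i ≠ 0
  homogeneous : ∀ i, IsWeightedHomogeneous w (top i) (d i)
  /-- `Φ_i` minus its top form `c_i(U) Φ⁰_i` has weighted degree less than `d_i` -/
  lower : ∀ i, ∀ e ∈ (Φ i - C (c i) * map Polynomial.C (top i)).support, Finsupp.weight w e < d i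
  /-- the top forms and `V` have no common zero outside the origin -/
  at_infinity : ∀ j, ∃ n : ℕ, (X (some j) : MvPolynomial (Option (Fin r)) ℂ) ^ n ∈
      Ideal.span (Set.range (fun o : Option (Fin r) => o.elim (X none) top))
  /-- the top forms and the determinant of their derivatives by the `Z_j` have no common zero with
  `V ≠ 0` -/
  transversal : ∃ n : ℕ, (X none : MvPolynomial (Option (Fin r)) ℂ) ^ n ∈
      Ideal.span (Set.range (fun o : Option (Fin r) =>
        o.elim (Matrix.det (Matrix.of fun i j => pderiv (some j) (top i))) top))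
  /-- the Jacobian criterion: the curve over `ℂ(U)` is smooth -/
  smooth : ∃ s : Polynomial ℂ, s ≠ 0 ∧ (C s : MvPolynomial (Option (Fin r)) (Polynomial ℂ)) ∈
      Ideal.span (Set.range Φ ∪ Set.range fun e : Fin r → Option (Fin r) =>
        Matrix.det (Matrix.of fun i j => pderiv (e j) (Φ i)))

/-- The value of `p ∈ ℂ[U][V, Z]` at `U = u`, `V = v`, `Z = z`. -/
noncomputable def value {r : ℕ} (u v : P2) (z : Fin r → K2)
    (p : MvPolynomial (Option (Fin r)) (Polynomial ℂ)) : K2 :=
  eval₂ ((algebraMap P2 K2).comp (Polynomial.eval₂RingHom C u))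
    (fun o => o.elim (algebraMap P2 K2 v) z) p

/-- Let `F` and `G` be Keller maps of the plane which agree on the coordinate cross. Let `E` be one of
them, let `L` and `H` be polynomial maps of the plane whose Jacobian determinants are nonzero
constants and let `W = L ∘ E ∘ H`. Let `D` be a family of weighted complete intersections over `ℂ[U]` as
above and let `z₁, …, z_r` be rational functions of `x, y` with `Φ_i(W₁; W₂, z) = 0` for all `i`. If
`ℂ(W₁, W₂, z) = ℂ(x, y)` then `F = G`. -/
theorem result (F G : Fin 2 → P2) (hF : jacobian F = 1) (hG : jacobian G = 1)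
    (hZ : ∀ v : Fin 2 → ℂ, v 0 * v 1 = 0 → ∀ i, eval v (F i) = eval v (G i))
    (E : Fin 2 → P2) (hE : E = F ∨ E = G)
    (L H : Fin 2 → P2) (hL : ∃ c : ℂ, c ≠ 0 ∧ jacobian L = C c)
    (hH : ∃ c : ℂ, c ≠ 0 ∧ jacobian H = C c)
    (W : Fin 2 → P2) (hW : W = comp L (comp E H))
    {r : ℕ} (D : Curve r) (z : Fin r → K2) (hz : ∀ i, value (W 0) (W 1) z (D.Φ i) = 0)
    (htop : IntermediateField.adjoin ℂ
        (Set.range (fun j => algebraMap P2 K2 (W j)) ∪ Set.range z) = ⊤) :
    F = G := by
  have hF' : Run7.h252.KL.Keller F := ⟨1, one_ne_zero, by rw [map_one]; exact hF⟩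
  have hG' : Run7.h252.KL.Keller G := ⟨1, one_ne_zero, by rw [map_one]; exact hG⟩
  have hE' : Run7.h252.KL.Keller E := by rcases hE with rfl | rfl <;> assumption
  have hW' : Run7.h252.KL.Keller W := by
    rw [hW]
    exact Run7.h252.KL.Keller.comp hL (hE'.comp hH)
  have hinv : ∃ A : Fin 2 → P2, ∀ i, aeval W (A i) = X i := by
    let D' : Pool.Agent.Y235.JC.CI ℂ r :=
      { w := D.w
        hw := D.w_pos
        d := D.d
        Φ := D.Φ
        Φ0 := D.top
        c := D.c
        hc := D.c_ne
        hΦ0 := D.homogeneous
        htop := fun i e he => by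
          have := D.lower i e he
          omega
        h2 := D.at_infinity
        h3 := D.transversal
        h4 := D.smooth }
    obtain ⟨A, hA, -⟩ := (Pool.Agent.Y235.JC.CI_field W hW'.unit D' z hz).2 htop
    exact ⟨A, hA⟩
  rw [hW] at hinv
  have h1 := Run7.h252.KL.inner (L := L) hH hinv
  rcases hE with rfl | rfl
  · exact Run7.h252.CR.eq_of_inv hF' hG' hZ h1
  · exact (Run7.h252.CR.eq_of_inv hG' hF' (fun v hv i => (hZ v hv i).symm) h1).symm

end Pool.Agent.Results.MP_631557_ag.CompleteIntersections
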