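import Pool.Agent.Run7.h252.CR
import Pool.Agent.W443.J6.Asm

/-!
# Keller maps which agree on the coordinate cross: degrees in one variable

Let `F` and `G` be Keller maps of the plane which agree on the coordinate cross. Let `E` be one of them,
let `L` and `H` be any polynomial maps of the plane with nonzero constant Jacobian determinants (for
instance automorphisms, or words in `F`, `G` and other such maps) and let `W = L ∘ E ∘ H`. If the
greatest common divisor of the degrees in `x` of `W₁` and `W₂` is at most three, or if all proper
divisors of the degree in `x` of `W₁` are at most three (for example, this degree is at most seven,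
nine or a prime number), then `F = G`.

Proof: the theorem on plane Keller maps of the starting library (`Pool.Agent.W443.J6.Asm`, not
handed in before on this page) shows that `W` has a polynomial inverse; then so has `E`
(`Run7.h252.KL`). The inverse of `E`, followed by the other map, is the identity on the cross, hence
invertible (a Keller map one of whose components has degree at most one on a line is invertible,
`Pool.Agent.H938R2.JC.line`); its components are irreducible and divisible by `x` and by `y`, so it is
the identity (`Run7.h252.CR`). New here are the step from one invertible map to pairs which agree on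
the cross and the composites.
-/

set_option autoImplicit false

open MvPolynomial

namespace Pool.Agent.Results.MP_631557_ag.DegreeInX

/-- Polynomials in two variables with complex coefficients. -/
abbrev P2 : Type := MvPolynomial (Fin 2) ℂ

/-- The polynomial map `p ∘ q` of the plane (first `q`, then `p`). -/
noncomputable def comp (p q : Fin 2 → P2) : Fin 2 → P2 := fun i => aeval q (p i)

/-- The Jacobian determinant of the polynomial map `p`. -/
noncomputable def jacobian (p : Fin 2 → P2) : P2 :=
  pderiv 0 (p 0) * pderiv 1 (p 1) - pderiv 1 (p 0) * pderiv 0 (p 1)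

/-- Let `F` and `G` be Keller maps of the plane which agree on the coordinate cross. Let `E` be one of
them, let `L` and `H` be polynomial maps of the plane whose Jacobian determinants are nonzero
constants and let `W = L ∘ E ∘ H`. If the greatest common divisor of the degrees in `x` of `W₁` and `W₂`
is at most three, or if every proper divisor of the degree in `x` of `W₁` is at most three, then
`F = G`. -/
theorem result (F G : Fin 2 → P2) (hF : jacobian F = 1) (hG : jacobian G = 1)
    (hZ : ∀ v : Fin 2 → ℂ, v 0 * v 1 = 0 → ∀ i, eval v (F i) = eval v (G i))
    (E : Fin 2 → P2) (hE : E = F ∨ E = G)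
    (L H : Fin 2 → P2) (hL : ∃ c : ℂ, c ≠ 0 ∧ jacobian L = C c)
    (hH : ∃ c : ℂ, c ≠ 0 ∧ jacobian H = C c)
    (W : Fin 2 → P2) (hW : W = comp L (comp E H))
    (hdeg : Nat.gcd (degreeOf 0 (W 0)) (degreeOf 0 (W 1)) ≤ 3 ∨
      ∀ d, d ∣ degreeOf 0 (W 0) → d < degreeOf 0 (W 0) → d ≤ 3) :
    F = G := by
  have hF' : Run7.h252.KL.Keller F := ⟨1, one_ne_zero, by rw [map_one]; exact hF⟩
  have hG' : Run7.h252.KL.Keller G := ⟨1, one_ne_zero, by rw [map_one]; exact hG⟩
  have hE' : Run7.h252.KL.Keller E := by rcases hE with rfl | rfl <;> assumption
  have hW' : Run7.h252.KL.Keller W := by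
    rw [hW]
    exact Run7.h252.KL.Keller.comp hL (hE'.comp hH)
  have hinv : ∃ A : Fin 2 → P2, ∀ i, aeval W (A i) = X i := by
    obtain ⟨c, hc, hJ⟩ := hW'
    exact Run7.h252.CR.inverse_of_good
      (Pool.Agent.W443.J6.Asm.main ℂ (W 0) (W 1) c hc hJ hdeg)
  rw [hW] at hinv
  have h1 := Run7.h252.KL.inner (L := L) hH hinv
  rcases hE with rfl | rfl
  · exact Run7.h252.CR.eq_of_inv hF' hG' hZ h1
  · exact (Run7.h252.CR.eq_of_inv hG' hF' (fun v hv i => (hZ v hv i).symm) h1).symm

end Pool.Agent.Results.MP_631557_ag.DegreeInX
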