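import Pool.Agent.Run7.h252.CR
import Pool.Agent.TH207.Desc

/-!
# Keller maps which agree on the coordinate cross: few monomials or few weights

Let `F` and `G` be Keller maps of the plane which agree on the coordinate cross. Let `E` be one of them,
let `L` and `H` be any polynomial maps of the plane with nonzero constant Jacobian determinants (for
instance automorphisms, or words in `F`, `G` and other such maps) and let `W = L ∘ E ∘ H`. If `W₁` has
at most seven monomials besides the constant, or if for some weights `u, v ≥ 0` of the variables, not
both zero, the monomials of `W₁` have at most four weights different from `0` and `min u v`, then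
`F = G`.

Proof: the theorem on plane Keller maps of the starting library (`Pool.Agent.TH207`, `Pool.Agent.W443`, not
handed in before on this page) shows that `W` has a polynomial inverse; then so has `E`
(`Run7.h252.KL`). The inverse of `E`, followed by the other map, is the identity on the cross, hence
invertible (a Keller map one of whose components has degree at most one on a line is invertible,
`Pool.Agent.H938R2.JC.line`); its components are irreducible and divisible by `x` and by `y`, so it is
the identity (`Run7.h252.CR`). New here are the step from one invertible map to pairs which agree on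
the cross and the composites.
-/

set_option autoImplicit false

open MvPolynomial

namespace Pool.Agent.Results.MP_631557_ag.FewPieces

/-- Polynomials in two variables with complex coefficients. -/
abbrev P2 : Type := MvPolynomial (Fin 2) ℂ

/-- The polynomial map `p ∘ q` of the plane (first `q`, then `p`). -/
noncomputable def comp (p q : Fin 2 → P2) : Fin 2 → P2 := fun i => aeval q (p i)

/-- The Jacobian determinant of the polynomial map `p`. -/
noncomputable def jacobian (p : Fin 2 → P2) : P2 :=
  pderiv 0 (p 0) * pderiv 1 (p 1) - pderiv 1 (p 0) * pderiv 0 (p 1)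

/-- The weights `u i + v j` of the monomials `x ^ i y ^ j` of `f`, without `0` and `min u v`. -/
noncomputable def weights (u v : ℕ) (f : P2) : Finset ℕ :=
  (f.support.image fun s => u * s 0 + v * s 1) \ {0, min u v}

/-- Let `F` and `G` be Keller maps of the plane which agree on the coordinate cross. Let `E` be one of
them, let `L` and `H` be polynomial maps of the plane whose Jacobian determinants are nonzero
constants and let `W = L ∘ E ∘ H`. If `W₁` has at most seven monomials different from the constant, or
if for some weights `u`, `v` of the variables, not both zero, it has at most four weights different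
from `0` and `min u v`, then `F = G`. -/
theorem result (F G : Fin 2 → P2) (hF : jacobian F = 1) (hG : jacobian G = 1)
    (hZ : ∀ v : Fin 2 → ℂ, v 0 * v 1 = 0 → ∀ i, eval v (F i) = eval v (G i))
    (E : Fin 2 → P2) (hE : E = F ∨ E = G)
    (L H : Fin 2 → P2) (hL : ∃ c : ℂ, c ≠ 0 ∧ jacobian L = C c)
    (hH : ∃ c : ℂ, c ≠ 0 ∧ jacobian H = C c)
    (W : Fin 2 → P2) (hW : W = comp L (comp E H))
    (hfew : ((W 0).support.erase 0).card ≤ 7 ∨
      ∃ u v : ℕ, (1 ≤ u ∨ 1 ≤ v) ∧ (weights u v (W 0)).card ≤ 4) :
    F = G := by
  have hF' : Run7.h252.KL.Keller F := ⟨1, one_ne_zero, by rw [map_one]; exact hF⟩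
  have hG' : Run7.h252.KL.Keller G := ⟨1, one_ne_zero, by rw [map_one]; exact hG⟩
  have hE' : Run7.h252.KL.Keller E := by rcases hE with rfl | rfl <;> assumption
  have hW' : Run7.h252.KL.Keller W := by
    rw [hW]
    exact Run7.h252.KL.Keller.comp hL (hE'.comp hH)
  have hinv : ∃ A : Fin 2 → P2, ∀ i, aeval W (A i) = X i := by
    obtain ⟨c, hc, hJ⟩ := hW'
    by_contra hno
    have hbad : Pool.Agent.W443.J6.Bad (W 0) (W 1) :=
      ⟨⟨c, hc, hJ⟩, fun hg => hno (Run7.h252.CR.inverse_of_good hg)⟩
    rcases hfew with h | ⟨u, v, huv, h⟩
    · have := Pool.Agent.TH207.eight hbad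
      omega
    · have h6 := Pool.Agent.TH207.count' hbad huv
      have h7 : Pool.Agent.TH207.Wts u v (W 0) \ {0, min u v} = weights u v (W 0) := rfl
      rw [h7] at h6
      omega
  rw [hW] at hinv
  have h1 := Run7.h252.KL.inner (L := L) hH hinv
  rcases hE with rfl | rfl
  · exact Run7.h252.CR.eq_of_inv hF' hG' hZ h1
  · exact (Run7.h252.CR.eq_of_inv hG' hF' (fun v hv i => (hZ v hv i).symm) h1).symm

end Pool.Agent.Results.MP_631557_ag.FewPieces
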